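import Pool.Agent.FGT.Stmts

/-!
# Squad FGT, row EMB (the quotient by a finite central subgroup acts by piecewise powers)
-/

namespace Pool.Agent.FGT.H60

open Filter Topology Pool.Agent.H22.CIG Pool.Agent.H67.CIP Pool.Agent.H50.CIG MeasureTheory

universe u v

section Emb

variable {X : Type v} [TopologicalSpace X] {T : X ≃ₜ X} {G : Type u} [Group G] [MulAction G X]

/-- the least displacement over a coset -/
noncomputable def mn (p : Piece T G) (A : Subgroup G) (hA : (A : Set G).Finite) (g : G) (x : X) : ℤ :=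
  hA.toFinset.inf' ⟨1, hA.mem_toFinset.mpr A.one_mem⟩ (fun a => p.n (a * g) x)

theorem mn_cont (p : Piece T G) (A : Subgroup G) (hA : (A : Set G).Finite) (g : G) :
    Continuous (mn p A hA g) := by
  unfold mn
  exact Continuous.finset_inf'_apply _ fun a _ => p.cont (a * g)

theorem mn_le (p : Piece T G) {A : Subgroup G} (hA : (A : Set G).Finite) (g : G) (x : X) {a : G}
    (ha : a ∈ A) : mn p A hA g x ≤ p.n (a * g) x :=
  Finset.inf'_le (fun a => p.n (a * g) x) (hA.mem_toFinset.mpr ha)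

theorem mn_exists (p : Piece T G) {A : Subgroup G} (hA : (A : Set G).Finite) (g : G) (x : X) :
    ∃ a ∈ A, mn p A hA g x = p.n (a * g) x := by
  obtain ⟨a, ha, h⟩ := Finset.exists_mem_eq_inf' (s := hA.toFinset)
    ⟨1, hA.mem_toFinset.mpr A.one_mem⟩ (fun a => p.n (a * g) x)
  exact ⟨a, hA.mem_toFinset.mp ha, h⟩

theorem mn_eq (p : Piece T G) {A : Subgroup G} (hA : (A : Set G).Finite) (g : G) (x : X) :
    mn p A hA g x = mn p A hA 1 (g • x) + p.n g x := by
  apply le_antisymm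
  · obtain ⟨a, ha, h⟩ := mn_exists p hA 1 (g • x)
    rw [h, mul_one, ← p.mul]
    exact mn_le p hA g x ha
  · obtain ⟨a, ha, h⟩ := mn_exists p hA g x
    rw [h, p.mul]
    have h1 := mn_le p hA 1 (g • x) ha
    rw [mul_one] at h1
    omega

theorem mn_mul (p : Piece T G) {A : Subgroup G} (hA : (A : Set G).Finite) (g : G) (x : X) {b : G}
    (hb : b ∈ A) : mn p A hA (b * g) x = mn p A hA g x := by
  apply le_antisymm
  · obtain ⟨a, ha, h⟩ := mn_exists p hA g x
    have h1 := mn_le p hA (b * g) x (A.mul_mem ha (A.inv_mem hb))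
    rw [h]
    have e : a * b⁻¹ * (b * g) = a * g := by group
    rwa [e] at h1
  · obtain ⟨a, ha, h⟩ := mn_exists p hA (b * g) x
    have h1 := mn_le p hA g x (A.mul_mem ha hb)
    rw [h, ← mul_assoc]
    exact h1

/-- the leftmost point of the `A`-orbit -/
noncomputable def lm (p : Piece T G) (A : Subgroup G) (hA : (A : Set G).Finite) (x : X) : X :=
  (T ^ (mn p A hA 1 x)) x

theorem lm_exists (p : Piece T G) {A : Subgroup G} (hA : (A : Set G).Finite) (x : X) :
    ∃ a ∈ A, lm p A hA x = a • x := by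
  obtain ⟨a, ha, h⟩ := mn_exists p hA 1 x
  refine ⟨a, ha, ?_⟩
  unfold lm
  rw [h, mul_one, ← p.eq]

theorem lm_smul (p : Piece T G) {A : Subgroup G} (hA : (A : Set G).Finite) (x : X) {a : G}
    (ha : a ∈ A) : lm p A hA (a • x) = lm p A hA x := by
  have h1 := mn_eq p hA a x
  have h2 := mn_mul p hA 1 x ha
  rw [mul_one] at h2
  unfold lm
  rw [p.eq a x, ← zpow_add_apply, ← p.eq a x, ← h1, h2]

theorem R_eq (p : Piece T G) {A : Subgroup G} (hA : (A : Set G).Finite) (g : G) (x : X) :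
    (T ^ (mn p A hA g x)) x = lm p A hA (g • x) := by
  unfold lm
  rw [mn_eq p hA g x, zpow_add_apply, ← p.eq]

theorem mn_lm (p : Piece T G) {A : Subgroup G} (hA : (A : Set G).Finite) (x : X) :
    mn p A hA 1 (lm p A hA x) = 0 := by
  obtain ⟨a, ha, h⟩ := lm_exists p hA x
  have h1 := lm_smul p hA x ha
  have h2 : (T ^ (mn p A hA 1 (a • x))) (a • x) = a • x := by
    have h3 : lm p A hA (a • x) = (T ^ (mn p A hA 1 (a • x))) (a • x) := rfl
    rw [← h3, h1, h]
  rw [h]
  exact p.ap _ _ h2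

/-- leftmost points are fixed by `lm` -/
theorem lm_of (p : Piece T G) {A : Subgroup G} (hA : (A : Set G).Finite) {x : X}
    (hx : mn p A hA 1 x = 0) : lm p A hA x = x := by
  unfold lm
  rw [hx, zpow_zero]
  rfl

open Classical in
/-- the new action -/
noncomputable def RR (p : Piece T G) (A : Subgroup G) (hA : (A : Set G).Finite) (g : G) (x : X) : X :=
  if mn p A hA 1 x = 0 then lm p A hA (g • x) else x

theorem RR_mem (p : Piece T G) {A : Subgroup G} (hA : (A : Set G).Finite) (g : G) {x : X}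
    (hx : mn p A hA 1 x = 0) : RR p A hA g x = lm p A hA (g • x) := by
  unfold RR
  rw [if_pos hx]

theorem RR_not (p : Piece T G) {A : Subgroup G} (hA : (A : Set G).Finite) (g : G) {x : X}
    (hx : ¬ mn p A hA 1 x = 0) : RR p A hA g x = x := by
  unfold RR
  rw [if_neg hx]

theorem RR_of_mem (p : Piece T G) {A : Subgroup G} (hA : (A : Set G).Finite) {a : G} (ha : a ∈ A)
    (x : X) : RR p A hA a x = x := by
  by_cases hx : mn p A hA 1 x = 0
  · rw [RR_mem p hA a hx, lm_smul p hA x ha, lm_of p hA hx]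
  · exact RR_not p hA a hx

theorem RR_mul (p : Piece T G) {A H : Subgroup G} (hA : (A : Set G).Finite)
    (hc : ∀ a ∈ A, ∀ h ∈ H, a * h = h * a) {g h : G} (hg : g ∈ H) (x : X) :
    RR p A hA g (RR p A hA h x) = RR p A hA (g * h) x := by
  by_cases hx : mn p A hA 1 x = 0
  · rw [RR_mem p hA h hx, RR_mem p hA (g * h) hx, RR_mem p hA g (mn_lm p hA _)]
    obtain ⟨a, ha, e⟩ := lm_exists p hA (h • x)
    rw [e, ← mul_smul, ← hc a ha g hg, mul_smul, lm_smul p hA _ ha, mul_smul]
  · rw [RR_not p hA h hx, RR_not p hA (g * h) hx, RR_not p hA g hx]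

/-- the homomorphism to the permutations -/
noncomputable def rho (p : Piece T G) {A H : Subgroup G} (hA : (A : Set G).Finite)
    (hc : ∀ a ∈ A, ∀ h ∈ H, a * h = h * a) : H →* Equiv.Perm X where
  toFun g :=
    { toFun := RR p A hA g
      invFun := RR p A hA (g⁻¹ : H)
      left_inv := fun x => by
        rw [RR_mul p hA hc (g⁻¹ : H).2]
        have e : ((g⁻¹ : H) : G) * (g : G) = 1 := by
          rw [Subgroup.coe_inv, inv_mul_cancel]
        rw [e, RR_of_mem p hA A.one_mem]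
      right_inv := fun x => by
        rw [RR_mul p hA hc g.2]
        have e : (g : G) * ((g⁻¹ : H) : G) = 1 := by
          rw [Subgroup.coe_inv, mul_inv_cancel]
        rw [e, RR_of_mem p hA A.one_mem] }
  map_one' := by
    ext x
    exact RR_of_mem p hA A.one_mem x
  map_mul' g h := by
    ext x
    exact (RR_mul p hA hc g.2 x).symm

theorem rho_apply (p : Piece T G) {A H : Subgroup G} (hA : (A : Set G).Finite)
    (hc : ∀ a ∈ A, ∀ h ∈ H, a * h = h * a) (g : H) (x : X) : rho p hA hc g x = RR p A hA g x := rfl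

theorem RR_eq_zpow (p : Piece T G) {A : Subgroup G} (hA : (A : Set G).Finite) (g : G) (x : X) :
    RR p A hA g x = (T ^ (if mn p A hA 1 x = 0 then mn p A hA g x else 0)) x := by
  by_cases hx : mn p A hA 1 x = 0
  · rw [RR_mem p hA g hx, if_pos hx, R_eq]
  · rw [RR_not p hA g hx, if_neg hx, zpow_zero]
    rfl

/-- an element which preserves the `A`-orbits of the leftmost points preserves all `A`-orbits -/
theorem pres (p : Piece T G) {A H : Subgroup G} (hA : (A : Set G).Finite) (hAH : A ≤ H)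
    (hc : ∀ a ∈ A, ∀ h ∈ H, a * h = h * a) {g : G} (hg : g ∈ H) (h : ∀ x, RR p A hA g x = x) (x : X) :
    ∃ a ∈ A, g • x = a • x := by
  obtain ⟨a, ha, e⟩ := lm_exists p hA x
  have h1 := h (lm p A hA x)
  rw [RR_mem p hA g (mn_lm p hA x)] at h1
  obtain ⟨b, hb, e'⟩ := lm_exists p hA (g • lm p A hA x)
  rw [e', e] at h1
  refine ⟨b⁻¹, A.inv_mem hb, ?_⟩
  have h2 : a • (b • (g • x)) = a • x := by
    calc a • (b • (g • x)) = (a * b * g) • x := by rw [mul_smul, mul_smul]
      _ = (b * (g * a)) • x := by rw [hc a ha b (hAH hb), mul_assoc, hc a ha g hg]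
      _ = a • x := by rw [mul_smul, mul_smul, h1]
  have h3 : b • (g • x) = x := MulAction.injective a h2
  rw [eq_inv_smul_iff]
  exact h3

/-- the elements of `H` which preserve the `A`-orbits -/
def K0 (X : Type v) {G : Type u} [Group G] [MulAction G X] (A H : Subgroup G)
    (hc : ∀ a ∈ A, ∀ h ∈ H, a * h = h * a) : Subgroup G where
  carrier := {g | g ∈ H ∧ ∀ x : X, ∃ a ∈ A, g • x = a • x}
  one_mem' := ⟨H.one_mem, fun x => ⟨1, A.one_mem, rfl⟩⟩
  mul_mem' := by
    rintro g g' ⟨hg, h⟩ ⟨hg', h'⟩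
    refine ⟨H.mul_mem hg hg', fun x => ?_⟩
    obtain ⟨a', ha', e'⟩ := h' x
    obtain ⟨a, ha, e⟩ := h x
    refine ⟨a' * a, A.mul_mem ha' ha, ?_⟩
    rw [mul_smul, e', ← mul_smul, ← hc a' ha' g hg, mul_smul, e, mul_smul]
  inv_mem' := by
    rintro g ⟨hg, h⟩
    refine ⟨H.inv_mem hg, fun x => ?_⟩
    obtain ⟨a, ha, e⟩ := h (g⁻¹ • x)
    rw [smul_inv_smul] at e
    refine ⟨a⁻¹, A.inv_mem ha, ?_⟩
    rw [eq_inv_smul_iff, ← e]

omit [TopologicalSpace X] in
theorem K0_comm [FaithfulSMul G X] {A H : Subgroup G} (hAH : A ≤ H)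
    (hc : ∀ a ∈ A, ∀ h ∈ H, a * h = h * a) {g g' : G} (hg : g ∈ K0 X A H hc)
    (hg' : g' ∈ K0 X A H hc) : g * g' = g' * g := by
  apply FaithfulSMul.eq_of_smul_eq_smul (α := X)
  intro x
  obtain ⟨a, ha, e⟩ := hg.2 x
  obtain ⟨a', ha', e'⟩ := hg'.2 x
  calc (g * g') • x = (g * a') • x := by rw [mul_smul, e', mul_smul]
    _ = (a' * g) • x := by rw [hc a' ha' g hg.1]
    _ = (a' * a) • x := by rw [mul_smul, e, mul_smul]
    _ = (a * a') • x := by rw [hc a' ha' a (hAH ha)]
    _ = (a * g') • x := by rw [mul_smul, ← e', mul_smul]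
    _ = (g' * a) • x := by rw [hc a ha g' hg'.1]
    _ = (g' * g) • x := by rw [mul_smul, ← e, mul_smul]

omit [TopologicalSpace X] in
theorem K0_tors [FaithfulSMul G X] {A H : Subgroup G} (hA : (A : Set G).Finite) (hAH : A ≤ H)
    (hc : ∀ a ∈ A, ∀ h ∈ H, a * h = h * a) {g : G} (hg : g ∈ K0 X A H hc) : IsOfFinOrder g := by
  have : Finite A := hA
  rw [isOfFinOrder_iff_pow_eq_one]
  refine ⟨Nat.card A, Nat.card_pos, ?_⟩
  apply FaithfulSMul.eq_of_smul_eq_smul (α := X)
  intro x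
  obtain ⟨a, ha, e⟩ := hg.2 x
  have h1 : ∀ n : ℕ, g ^ n • x = a ^ n • x := by
    intro n
    induction n with
    | zero => simp
    | succ n ih =>
      have h2 : Commute a g := hc a ha g hg.1
      rw [pow_succ, mul_smul, e, ← mul_smul, ← (h2.pow_right n).eq, mul_smul, ih, pow_succ',
        mul_smul]
  rw [h1]
  have h3 : a ^ Nat.card A = 1 := by
    have h4 : (⟨a, ha⟩ : A) ^ Nat.card A = 1 := pow_card_eq_one'
    exact congrArg Subtype.val h4
  rw [h3]

theorem K0_finite [FaithfulSMul G X] (hN : NLFS G) {A H : Subgroup G} (hA : (A : Set G).Finite)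
    (hAH : A ≤ H) (hc : ∀ a ∈ A, ∀ h ∈ H, a * h = h * a) : (K0 X A H hc : Set G).Finite := by
  apply hN
  intro F hF hFG
  let i : CommGroup F :=
    { (inferInstance : Group F) with
      mul_comm := fun a b => Subtype.ext (K0_comm hAH hc (hF a.2) (hF b.2)) }
  have h1 : Group.FG F := (Group.fg_iff_subgroup_fg F).mpr hFG
  have h2 : IsMulTorsion F := by
    intro a
    have h3 := K0_tors hA hAH hc (hF a.2)
    exact Submonoid.isOfFinOrder_coe.mp h3
  have h3 : Finite F := CommGroup.finite_of_fg_isMulTorsion (G := F) h2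
  exact Set.toFinite (F : Set G)

theorem K0_sub [FaithfulSMul G X] (hN : NLFS G) {A H : Subgroup G} (hA : (A : Set G).Finite)
    (hAH : A ≤ H) (hc : ∀ a ∈ A, ∀ h ∈ H, a * h = h * a) (hH : (H : Set G).Infinite)
    (hfc : ∀ x ∈ H, x ∉ A → {y : G | y ∈ H ∧ y * x * y⁻¹ * x⁻¹ ∈ A}.Finite) {g : G}
    (hg : g ∈ K0 X A H hc) : g ∈ A := by
  by_contra hgA
  have hK := K0_finite (X := X) hN hA hAH hc
  have hfin := hfc g hg.1 hgA
  apply hH
  refine Set.Finite.of_finite_fibers (fun y => y * g * y⁻¹) ?_ ?_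
  · refine hK.subset ?_
    rintro _ ⟨y, hy, rfl⟩
    refine ⟨H.mul_mem (H.mul_mem hy hg.1) (H.inv_mem hy), fun x => ?_⟩
    obtain ⟨a, ha, e⟩ := hg.2 (y⁻¹ • x)
    refine ⟨a, ha, ?_⟩
    rw [mul_smul, mul_smul, e, ← mul_smul, ← hc a ha y hy, mul_smul, smul_inv_smul]
  · rintro _ ⟨y₀, hy₀, rfl⟩
    refine (hfin.image (fun c => y₀ * c)).subset ?_
    rintro y ⟨hy, hyy⟩
    have hyy' : y * g * y⁻¹ = y₀ * g * y₀⁻¹ := hyy
    refine ⟨y₀⁻¹ * y, ⟨H.mul_mem (H.inv_mem hy₀) hy, ?_⟩, by group⟩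
    have h1 : y₀⁻¹ * y * g * (y₀⁻¹ * y)⁻¹ * g⁻¹ = 1 := by
      calc y₀⁻¹ * y * g * (y₀⁻¹ * y)⁻¹ * g⁻¹ = y₀⁻¹ * (y * g * y⁻¹) * y₀ * g⁻¹ := by group
        _ = y₀⁻¹ * (y₀ * g * y₀⁻¹) * y₀ * g⁻¹ := by rw [hyy']
        _ = 1 := by group
    rw [h1]
    exact A.one_mem

end Emb

theorem emb : EmbStmt.{u, v} := by
  intro X _ _ T G _ _ _ p hN A H hA hAH hc hH hfc hnor
  have hker : A.subgroupOf H ≤ (rho p hA hc).ker := by
    intro a ha
    rw [Subgroup.mem_subgroupOf] at ha
    rw [MonoidHom.mem_ker]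
    ext x
    exact RR_of_mem p hA ha x
  let φ : H ⧸ A.subgroupOf H →* Equiv.Perm X :=
    QuotientGroup.lift (A.subgroupOf H) (rho p hA hc) hker
  have hφ : ∀ (h : H) (x : X), φ (QuotientGroup.mk h) x = RR p A hA h x := by
    intro h x
    rfl
  let i : MulAction (H ⧸ A.subgroupOf H) X := MulAction.compHom X φ
  have hsm : ∀ (q : H ⧸ A.subgroupOf H) (x : X), q • x = φ q x := fun q x => rfl
  refine ⟨i, ?_, ⟨?_⟩⟩
  · constructor
    intro q₁ q₂ h
    have h1 : ∀ x, φ (q₁⁻¹ * q₂) x = x := by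
      intro x
      rw [map_mul, map_inv, Equiv.Perm.mul_apply]
      have h2 : φ q₁ x = φ q₂ x := h x
      rw [← h2]
      exact (φ q₁).symm_apply_apply x
    obtain ⟨g, hg⟩ := QuotientGroup.mk_surjective (q₁⁻¹ * q₂)
    rw [← hg] at h1
    have h2 : (g : G) ∈ A := by
      apply K0_sub (X := X) hN hA hAH hc hH hfc
      exact ⟨g.2, pres p hA hAH hc g.2 fun x => by rw [← hφ]; exact h1 x⟩
    have h3 : (QuotientGroup.mk g : H ⧸ A.subgroupOf H) = 1 := by
      rw [QuotientGroup.eq_one_iff, Subgroup.mem_subgroupOf]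
      exact h2
    rw [h3] at hg
    exact (inv_mul_eq_one.mp hg.symm)
  · classical
    exact
      { n := fun q x => if mn p A hA 1 x = 0 then mn p A hA (q.out : G) x else 0
        cont := by
          intro q
          have h1 : Continuous (fun x => (mn p A hA 1 x, mn p A hA (q.out : G) x)) :=
            (mn_cont p A hA 1).prodMk (mn_cont p A hA _)
          exact (continuous_of_discreteTopology
            (f := fun r : ℤ × ℤ => if r.1 = 0 then r.2 else 0)).comp h1
        eq := by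
          intro q x
          rw [hsm]
          have h1 : φ q x = RR p A hA (q.out : G) x := by
            rw [← hφ, QuotientGroup.out_eq']
          rw [h1, RR_eq_zpow]
        ap := p.ap }

end Pool.Agent.FGT.H60
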