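import Pool.Agent.FGT.Stmts

/-!
# Squad FGT, row RAL (reduction to finite centralizers, algebra)
-/

namespace Pool.Agent.FGT.H60

open Filter Topology Pool.Agent.H22.CIG Pool.Agent.H67.CIP Pool.Agent.H50.CIG MeasureTheory

universe u v

/-- finite commutative subgroups with infinite centralizer -/
def FA {G : Type u} [Group G] (A : Subgroup G) : Prop :=
  (A : Set G).Finite ∧ A ≤ Subgroup.centralizer (A : Set G) ∧
    ((Subgroup.centralizer (A : Set G) : Subgroup G) : Set G).Infinite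

theorem exists_max {G : Type u} [Group G] (hG : Infinite G) (hCI : ¬ CI G) :
    ∃ A : Subgroup G, FA A ∧ ∀ B : Subgroup G, FA B → A ≤ B → B = A := by
  by_contra hcon
  push Not at hcon
  choose! f hf using hcon
  have h0 : FA (⊥ : Subgroup G) := by
    refine ⟨by simp, bot_le, ?_⟩
    have h1 : ((Subgroup.centralizer ((⊥ : Subgroup G) : Set G) : Subgroup G) : Set G) = Set.univ := by
      ext x
      simp [Subgroup.mem_centralizer_iff]
    rw [h1]
    exact Set.infinite_univ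
  let s : ℕ → Subgroup G := fun n => f^[n] ⊥
  have hs : ∀ n, s (n + 1) = f (s n) := fun n => Function.iterate_succ_apply' f n ⊥
  have hP : ∀ n, FA (s n) := by
    intro n
    induction n with
    | zero => exact h0
    | succ n ih =>
      rw [hs]
      exact (hf _ ih).1
  have hlt : ∀ n, s n < s (n + 1) := by
    intro n
    rw [hs]
    exact lt_of_le_of_ne (hf _ (hP n)).2.1 (Ne.symm (hf _ (hP n)).2.2)
  have hmono : StrictMono s := strictMono_nat_of_lt_succ hlt
  apply hCI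
  refine CI.of_set (⋃ n, (s n : Set G)) ?_ ?_
  · intro hfin
    have h1 : (Set.powerset (⋃ n, (s n : Set G))).Finite := hfin.finite_subsets
    have h2 : Set.range (fun n => (s n : Set G)) ⊆ Set.powerset (⋃ n, (s n : Set G)) := by
      rintro _ ⟨n, rfl⟩
      exact Set.subset_iUnion (fun n => (s n : Set G)) n
    have h3 : Function.Injective (fun n => (s n : Set G)) := by
      intro a b hab
      exact hmono.injective (SetLike.coe_injective hab)
    exact Set.infinite_range_of_injective h3 (h1.subset h2)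
  · intro x hx y hy
    obtain ⟨n, hn⟩ := Set.mem_iUnion.mp hx
    obtain ⟨m, hm⟩ := Set.mem_iUnion.mp hy
    have h1 : x ∈ s (max n m) := hmono.monotone (le_max_left n m) hn
    have h2 : y ∈ s (max n m) := hmono.monotone (le_max_right n m) hm
    exact (Subgroup.mem_centralizer_iff.mp ((hP (max n m)).2.1 h2) x h1)

theorem ral : RalStmt.{u} := by
  intro G _ hG hCI
  have htors : ∀ x : G, IsOfFinOrder x := by
    intro x
    by_contra hx
    have h1 : ((Subgroup.zpowers x : Subgroup G) : Set G).Infinite := fun h =>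
      hx (finite_zpowers.mp h)
    refine hCI ⟨Subgroup.zpowers x, Subgroup.zpowers x, h1, h1, ?_⟩
    rintro a ⟨m, rfl⟩ b ⟨n, rfl⟩
    show x ^ m * x ^ n = x ^ n * x ^ m
    rw [← zpow_add, ← zpow_add, add_comm]
  obtain ⟨A, ⟨hAf, hAc, hAi⟩, hmax⟩ := exists_max hG hCI
  refine ⟨A, hAf, hAc, hAi, ?_⟩
  intro x hx hxA
  have hcx : ∀ a ∈ A, a * x = x * a := fun a ha => Subgroup.mem_centralizer_iff.mp hx a ha
  have hcz : ∀ a ∈ A, ∀ z ∈ Subgroup.zpowers x, a * z = z * a := by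
    rintro a ha _ ⟨n, rfl⟩
    exact ((show Commute a x from hcx a ha).zpow_right n).eq
  have hzz : ∀ z ∈ Subgroup.zpowers x, ∀ z' ∈ Subgroup.zpowers x, z * z' = z' * z := by
    rintro _ ⟨m, rfl⟩ _ ⟨n, rfl⟩
    show x ^ m * x ^ n = x ^ n * x ^ m
    rw [← zpow_add, ← zpow_add, add_comm]
  have haa : ∀ a ∈ A, ∀ b ∈ A, a * b = b * a := fun a ha b hb =>
    Subgroup.mem_centralizer_iff.mp (hAc hb) a ha
  let A' : Subgroup G :=
    { carrier := {g | ∃ a ∈ A, ∃ z ∈ Subgroup.zpowers x, a * z = g}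
      one_mem' := ⟨1, A.one_mem, 1, Subgroup.one_mem _, one_mul 1⟩
      mul_mem' := by
        rintro _ _ ⟨a, ha, z, hz, rfl⟩ ⟨b, hb, w, hw, rfl⟩
        refine ⟨a * b, A.mul_mem ha hb, z * w, Subgroup.mul_mem _ hz hw, ?_⟩
        rw [mul_assoc, ← mul_assoc b z w, hcz b hb z hz, mul_assoc, mul_assoc]
      inv_mem' := by
        rintro _ ⟨a, ha, z, hz, rfl⟩
        refine ⟨a⁻¹, A.inv_mem ha, z⁻¹, Subgroup.inv_mem _ hz, ?_⟩
        rw [mul_inv_rev]
        exact hcz _ (A.inv_mem ha) _ (Subgroup.inv_mem _ hz) }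
  have hA'f : (A' : Set G).Finite := by
    have h1 : ((Subgroup.zpowers x : Subgroup G) : Set G).Finite := finite_zpowers.mpr (htors x)
    refine ((hAf.prod h1).image (fun q : G × G => q.1 * q.2)).subset ?_
    rintro _ ⟨a, ha, z, hz, rfl⟩
    exact ⟨(a, z), ⟨ha, hz⟩, rfl⟩
  have hA'c : A' ≤ Subgroup.centralizer (A' : Set G) := by
    rintro _ ⟨a, ha, z, hz, rfl⟩
    rw [Subgroup.mem_centralizer_iff]
    rintro _ ⟨b, hb, w, hw, rfl⟩
    have e1 := hcz a ha w hw
    have e2 := hcz b hb z hz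
    have e3 := haa a ha b hb
    have e4 := hzz z hz w hw
    calc b * w * (a * z) = b * (w * a) * z := by group
      _ = b * (a * w) * z := by rw [e1]
      _ = (b * a) * (w * z) := by group
      _ = (a * b) * (z * w) := by rw [e3, e4]
      _ = a * (b * z) * w := by group
      _ = a * (z * b) * w := by rw [e2]
      _ = a * z * (b * w) := by group
  have hAA' : A ≤ A' := fun a ha => ⟨a, ha, 1, Subgroup.one_mem _, mul_one a⟩
  have hxA' : x ∈ A' := ⟨1, A.one_mem, x, Subgroup.mem_zpowers x, one_mul x⟩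
  have hCfin : ((Subgroup.centralizer (A' : Set G) : Subgroup G) : Set G).Finite := by
    by_contra hinf
    have h1 := hmax A' ⟨hA'f, hA'c, hinf⟩ hAA'
    rw [h1] at hxA'
    exact hxA hxA'
  refine Set.Finite.of_finite_fibers (fun y => y * x * y⁻¹ * x⁻¹) ?_ ?_
  · refine hAf.subset ?_
    rintro _ ⟨y, hy, rfl⟩
    exact hy.2
  · rintro _ ⟨y₀, hy₀, rfl⟩
    refine (hCfin.image (fun c => y₀ * c)).subset ?_
    rintro y ⟨hy, hyy⟩
    have hyy' : y * x * y⁻¹ * x⁻¹ = y₀ * x * y₀⁻¹ * x⁻¹ := hyy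
    refine ⟨y₀⁻¹ * y, ?_, by group⟩
    rw [SetLike.mem_coe, Subgroup.mem_centralizer_iff]
    rintro _ ⟨a, ha, z, hz, rfl⟩
    have hc1 : a * (y₀⁻¹ * y) = (y₀⁻¹ * y) * a := by
      have h2 : y₀⁻¹ * y ∈ Subgroup.centralizer (A : Set G) :=
        Subgroup.mul_mem _ (Subgroup.inv_mem _ hy₀.1) hy.1
      exact Subgroup.mem_centralizer_iff.mp h2 a ha
    have hc2 : Commute x (y₀⁻¹ * y) := by
      have h3 : y * x * y⁻¹ = y₀ * x * y₀⁻¹ := mul_right_cancel hyy'
      show x * (y₀⁻¹ * y) = y₀⁻¹ * y * x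
      calc x * (y₀⁻¹ * y) = y₀⁻¹ * (y₀ * x * y₀⁻¹) * y := by group
        _ = y₀⁻¹ * (y * x * y⁻¹) * y := by rw [h3]
        _ = y₀⁻¹ * y * x := by group
    have hc3 : z * (y₀⁻¹ * y) = (y₀⁻¹ * y) * z := by
      obtain ⟨n, rfl⟩ := hz
      exact (hc2.zpow_left n).eq
    calc a * z * (y₀⁻¹ * y) = a * (z * (y₀⁻¹ * y)) := by group
      _ = a * ((y₀⁻¹ * y) * z) := by rw [hc3]
      _ = (a * (y₀⁻¹ * y)) * z := by group
      _ = ((y₀⁻¹ * y) * a) * z := by rw [hc1]
      _ = y₀⁻¹ * y * (a * z) := by group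

end Pool.Agent.FGT.H60
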